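import Mathlib
import Pool.Agent.Lib.AlmostAllCL.LOne

/-!
# Almost all column-latin matrices on `m` symbols have the expected number of transversals

`m × n` matrices with entries in a set of `m` symbols are functions `Fin m → Fin n → Fin m`
(row, column, symbol).  For almost all of the column-latin ones (every column is a permutation of
the symbols) the number of transversals is `(1 + o(1)) n (n - 1) ⋯ (n - m + 1) m! / m ^ m` as
`m → ∞`, uniformly in `n ≥ m`; in particular there is one.
-/

open Finset
open scoped Nat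

namespace Pool.Agent.Results.MP_e5a04e_co.AlmostAll

/-- No symbol occurs twice in a column. -/
def ColLatin {m n : ℕ} (A : Fin m → Fin n → Fin m) : Prop :=
  ∀ j, Function.Injective fun i => A i j

/-- The cells `(i, c i)`, one in every row, lie in distinct columns and carry distinct symbols. -/
def IsTransversal {m n : ℕ} (A : Fin m → Fin n → Fin m) (c : Fin m → Fin n) : Prop :=
  Function.Injective c ∧ Function.Injective fun i => A i (c i)

/-- The number of transversals of `A`. -/
noncomputable def numTrans {m n : ℕ} (A : Fin m → Fin n → Fin m) : ℕ :=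
  Nat.card {c : Fin m → Fin n // IsTransversal A c}

open Pool.Agent.Lib.AlmostAllCL Equiv

/-- Column-latin matrices on `m` symbols are sequences of permutations. -/
noncomputable def toPerm (m n : ℕ) :
    {A : Fin m → Fin n → Fin m // ColLatin A} ≃ (Fin n → Perm (Fin m)) where
  toFun A j := Equiv.ofBijective (fun i => A.1 i j) (Finite.injective_iff_bijective.1 (A.2 j))
  invFun M := ⟨fun i j => M j i, fun j => (M j).injective⟩
  left_inv A := by apply Subtype.ext; funext i j; rfl
  right_inv M := by funext j; ext i; rfl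

lemma card_all (m n : ℕ) :
    (Nat.card {A : Fin m → Fin n → Fin m // ColLatin A} : ℝ) = (m ! : ℝ) ^ n := by
  rw [Nat.card_congr (toPerm m n), Nat.card_eq_fintype_card]
  exact card_om m n

lemma card_sub (m n : ℕ) (P : (Fin m → Fin n → Fin m) → Prop) (P' : (Fin n → Perm (Fin m)) → Prop)
    (h : ∀ M : Fin n → Perm (Fin m), P' M ↔ P (fun i j => M j i)) :
    Nat.card {A : Fin m → Fin n → Fin m // ColLatin A ∧ P A} =
      Nat.card {M : Fin n → Perm (Fin m) // P' M} := by
  refine Nat.card_congr ?_
  refine
    { toFun := fun A => ⟨toPerm m n ⟨A.1, A.2.1⟩, (h _).2 A.2.2⟩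
      invFun := fun M => ⟨fun i j => M.1 j i, fun j => (M.1 j).injective, (h _).1 M.2⟩
      left_inv := ?_
      right_inv := ?_ }
  · intro A; rfl
  · intro M; apply Subtype.ext; funext j; ext i; rfl

/-- For every `ε > 0`, all sufficiently large `m` and every `n ≥ m`: at least the proportion `1 - ε`
of all column-latin `m × n` matrices on `m` symbols have between `(1 - ε) D` and `(1 + ε) D`
transversals, where `D = n (n - 1) ⋯ (n - m + 1) m! / m ^ m`. -/
theorem result (ε : ℝ) (hε : 0 < ε) : ∃ m₀ : ℕ, ∀ m ≥ m₀, ∀ n ≥ m,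
    (1 - ε) * (Nat.card {A : Fin m → Fin n → Fin m // ColLatin A} : ℝ) ≤
      (Nat.card {A : Fin m → Fin n → Fin m // ColLatin A ∧
        |(numTrans A : ℝ) - (n.descFactorial m : ℝ) * (m ! : ℝ) / (m : ℝ) ^ m| ≤
          ε * ((n.descFactorial m : ℝ) * (m ! : ℝ) / (m : ℝ) ^ m)} : ℝ) := by
  classical
  obtain ⟨m₀, _, hm₀⟩ := main ε hε
  refine ⟨m₀, fun m hm n hn => ?_⟩
  rw [card_all, card_sub m n (fun A =>
        |(numTrans A : ℝ) - (n.descFactorial m : ℝ) * (m ! : ℝ) / (m : ℝ) ^ m| ≤
          ε * ((n.descFactorial m : ℝ) * (m ! : ℝ) / (m : ℝ) ^ m))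
      (fun M => |TT M - (n.descFactorial m : ℝ) * (m ! : ℝ) / (m : ℝ) ^ m| ≤
          ε * ((n.descFactorial m : ℝ) * (m ! : ℝ) / (m : ℝ) ^ m))
      (fun M => Iff.rfl)]
  rw [Nat.card_eq_fintype_card, Fintype.card_subtype]
  exact hm₀ m hm n hn

end Pool.Agent.Results.MP_e5a04e_co.AlmostAll
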