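import Pool.Agent.Lib.ColGrow.Light

set_option autoImplicit false

namespace Pool.Agent.Results.MP_e5a04e_co.FewRepetitions

/-- Let `A` be an `m × n` column-latin matrix, `m ≤ n`, in which no symbol occurs more than `l`
times in a row. If `(n - m)^2 ≥ 128 (⌊log₂ ⌊m / l⌋⌋ + 3) l m`, then `A` has a transversal. -/
theorem result : ∀ l m n : ℕ, 1 ≤ l → m ≤ n →
    128 * (Nat.log 2 (m / l) + 3) * l * m ≤ (n - m) ^ 2 →
    ∀ A : Fin m → Fin n → ℕ,
      (∀ j : Fin n, Function.Injective (fun i : Fin m => A i j)) →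
      (∀ (i : Fin m) (s : ℕ), (Finset.univ.filter (fun j : Fin n => A i j = s)).card ≤ l) →
      ∃ S : Finset (Fin m × Fin n), S.card = m ∧
        Set.InjOn (fun p : Fin m × Fin n => p.1) (↑S : Set (Fin m × Fin n)) ∧
        Set.InjOn (fun p : Fin m × Fin n => p.2) (↑S : Set (Fin m × Fin n)) ∧
        Set.InjOn (fun p : Fin m × Fin n => A p.1 p.2) (↑S : Set (Fin m × Fin n)) := by
  intro l m n hl hmn h A hA hA2
  obtain ⟨T, hT, hTm⟩ := ColGrow.full_of_light l hl hmn hA hA2 h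
  exact ⟨T, hTm, hT.row, hT.col, hT.sym⟩

end Pool.Agent.Results.MP_e5a04e_co.FewRepetitions
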