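import Pool.Agent.Lib.ColGrow.Main

set_option autoImplicit false

namespace Pool.Agent.Results.MP_e5a04e_co.LightRows

/-- Let `M, k ≥ 1`, `m ≥ 2^40 M^8`, let `A` be an `m × n` column-latin matrix, and let `H` be a set
of rows such that in every row outside `H` any `2^33 M^8` symbols leave at least `n / M` cells.
If `n ≥ m + |H| / k + m / M`, then `A` has a partial transversal of length `m + 1 - k`. -/
theorem result : ∀ M m n k : ℕ, 1 ≤ M → 1 ≤ k → 2 ^ 40 * M ^ 8 ≤ m →
    ∀ A : Fin m → Fin n → ℕ,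
      (∀ j : Fin n, Function.Injective (fun i : Fin m => A i j)) →
      ∀ H : Finset (Fin m),
        (∀ i : Fin m, i ∉ H → ∀ P : Finset ℕ, P.card ≤ 2 ^ 33 * M ^ 8 →
          n ≤ M * (Finset.univ.filter (fun j : Fin n => A i j ∉ P)).card) →
        (m : ℝ) + (H.card : ℝ) / k + (m : ℝ) / M ≤ n →
        ∃ S : Finset (Fin m × Fin n), S.card = m + 1 - k ∧
          Set.InjOn (fun p : Fin m × Fin n => p.1) (↑S : Set (Fin m × Fin n)) ∧
          Set.InjOn (fun p : Fin m × Fin n => p.2) (↑S : Set (Fin m × Fin n)) ∧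
          Set.InjOn (fun p : Fin m × Fin n => A p.1 p.2) (↑S : Set (Fin m × Fin n)) := by
  intro M m n k hM hk hm A hA H hH hn
  obtain ⟨T, hT, hTk⟩ := ColGrow.light_rows_nat M hM hm hA H hH k hk hn
  obtain ⟨S, hST, hS⟩ := Finset.exists_subset_card_eq (show m + 1 - k ≤ T.card by omega)
  have h := hT.mono hST
  exact ⟨S, hS, h.row, h.col, h.sym⟩

end Pool.Agent.Results.MP_e5a04e_co.LightRows
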