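import Pool.Agent.StE5.Main

set_option autoImplicit false

namespace Pool.Agent.Results.MP_e5a04e_co.SevenFifths

/-- Every `m × n` column-latin matrix with `m ≤ n` and `7 m ≤ 5 n + 13` has a near transversal. -/
theorem result : ∀ m n : ℕ, m ≤ n → 7 * m ≤ 5 * n + 13 → ∀ A : Fin m → Fin n → ℕ,
      (∀ j : Fin n, Function.Injective (fun i : Fin m => A i j)) →
      ∃ S : Finset (Fin m × Fin n), S.card = m - 1 ∧
        Set.InjOn (fun p : Fin m × Fin n => p.1) (↑S : Set (Fin m × Fin n)) ∧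
        Set.InjOn (fun p : Fin m × Fin n => p.2) (↑S : Set (Fin m × Fin n)) ∧
        Set.InjOn (fun p : Fin m × Fin n => A p.1 p.2) (↑S : Set (Fin m × Fin n)) := by
  intro m n hmn h A hA
  obtain ⟨T, h1, h2⟩ := StE5.near_transversal m n hmn h A hA
  exact ⟨T, h1, h2⟩

end Pool.Agent.Results.MP_e5a04e_co.SevenFifths
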